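import Pool.Agent.Q275.DE.Main

/-!
# MP_d00095_nt: if one `‡`-order is `‡`-Euclidean then every maximal `‡`-order is

`K` is a number field, `H` a quaternion algebra over `K` (central simple, of dimension `4`, a division algebra or not) with
standard involution `z ↦ z̄`, and `z^‡ = u z̄ u⁻¹` with `u ∈ H^×`, `u ∉ K`, `u² ∈ K`.

Suppose that some `‡`-order of `H` is `‡`-Euclidean. We prove

* every maximal `‡`-order of `H` is `‡`-Euclidean (the answer to Q1 is yes);
* every `‡`-order of `H` is contained in a `‡`-Euclidean `‡`-order;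
* any two maximal `‡`-orders of `H` are conjugate by an element of `H^×` (they need not be isomorphic as rings with
  involution).

## The proof

Let `O` be a `‡`-Euclidean `‡`-order with the function `Φ`, and `O'` any `‡`-order. Orders are stable under `z ↦ z̄`, so `O`,
`O'` and the bimodule `N = O' O` are stable under `τ(z) = u z u⁻¹ = (z̄)^‡`. Multiplying by an integer `m ≠ 0` with `m N ⊆ O`
and taking the minimum over the elements `ε` of norm one of `O`, `Ψ(x) = min Φ(m x ε)`, we get a Euclidean function on `N`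
which is invariant under right multiplication by these `ε`.

Let `b ∈ N` be invertible in `H` with `Ψ(b)` minimal. For `a ∈ N` with `a b^‡ ∈ H⁺` one has `a = b q` with `q ∈ O⁺`: the
remainder `r = a - b q` would be a zero divisor with `Ψ(r) < Ψ(b)`, and the Euclidean algorithm for `(b, r)` would give a
common left divisor of norm zero of `b` and `r`. This applies to `a = τ(b)`, as `τ(b) b^‡ = nrd(b)`: so `τ(b) = b η`,
`η ∈ O⁺`, `nrd(η) = 1`. The order `O₁ = b O b⁻¹` is therefore stable under `‡`. Since `b η` is also minimal and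
`(b η)^‡ = b̄`, all `a ∈ N` with `a b̄ ∈ H⁺` are in `b O`, that is, the lattice `J = N b⁻¹`, which contains `O'` and `O₁`,
satisfies `J ∩ H⁺ ⊆ O₁`. As `H⁻ = K u` has dimension one, `J / O₁` is a quotient of two fractional ideals of `K`, a cyclic
module, on which an element of `O₁` can act from the right only as a scalar. So `O' O₁ ⊆ O' + O₁`, and by the involution
`O₁ O' ⊆ O' + O₁`: `S = O' + O₁` is a `‡`-order, and `x ↦ Ψ(x b)` shows that it is `‡`-Euclidean.
-/

set_option autoImplicit false
set_option linter.unusedVariables false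

namespace Pool.Agent.Results.MP_d00095_nt.EveryMaximalOrder

open NumberField
open Pool.Agent.Q275.DE

universe w

/-- **If one `‡`-order of `H` is `‡`-Euclidean then every maximal `‡`-order of `H` is `‡`-Euclidean**, every `‡`-order is
contained in a `‡`-Euclidean one, and the maximal `‡`-orders are conjugate. -/
theorem result (K : Type*) [Field K] [NumberField K] (H : Type*) [Ring H] [Algebra K H] [Algebra.IsCentral K H]
    [IsSimpleRing H] (hdim : Module.finrank K H = 4) (D : OrthInv K H)
    (h : ∃ O : Subalgebra (𝓞 K) H, D.IsDagOrder O ∧ D.IsDagEuclidean.{_, _, _, w} O) :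
    (∀ O : Subalgebra (𝓞 K) H, D.IsMaximalDagOrder O → D.IsDagEuclidean.{_, _, _, w} O) ∧
    (∀ O : Subalgebra (𝓞 K) H, D.IsDagOrder O →
      ∃ O' : Subalgebra (𝓞 K) H, D.IsDagOrder O' ∧ D.IsDagEuclidean.{_, _, _, w} O' ∧ O ≤ O') ∧
    (∀ O O' : Subalgebra (𝓞 K) H, D.IsMaximalDagOrder O → D.IsMaximalDagOrder O' →
      ∃ b : Hˣ, ∀ x : H, x ∈ O ↔ (b : H) * x * ↑b⁻¹ ∈ O') := by
  obtain ⟨O, hO, hE⟩ := h
  have h1 : ∀ O' : Subalgebra (𝓞 K) H, D.IsMaximalDagOrder O' → D.IsDagEuclidean.{_, _, _, w} O' := by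
    intro O' hO'
    obtain ⟨S, -, -, -, hS, hSE, hle, -⟩ := D.main hO hE hO'.1
    rwa [hO'.2 S hS hle] at hSE
  refine ⟨h1, fun O' hO' => ?_, fun O' O'' hO' hO'' => ?_⟩
  · obtain ⟨S, -, -, -, hS, hSE, hle, -⟩ := D.main hO hE hO'
    exact ⟨S, hS, hSE, hle⟩
  · obtain ⟨S, b, c, e, hS, -, hle, hbc, hcb, hbS, he, hbe, hee, hee', hconj⟩ := D.main hO'.1 (h1 O' hO') hO''.1
    rw [hO''.2 S hS hle] at hbS
    obtain ⟨T, hT, hTO⟩ := exists_conj D hO''.1 hbc hcb he hbe hee' hconj hbS
    have hTeq := hO'.2 T hT (fun x hx => (hTO x).2 (hbS x hx))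
    refine ⟨⟨b, c, hbc, hcb⟩, fun x => ?_⟩
    rw [← hTeq, hTO]
    rfl

end Pool.Agent.Results.MP_d00095_nt.EveryMaximalOrder
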